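import Pool.Agent.H34.FQ.Targets

/-!
# The local classes at a small prime (row HC1)
-/

set_option autoImplicit false

open Finset Pool.Agent.H32.RQ Pool.Agent.H34.FQ

namespace Pool.Agent.H70.HFQ.HC

/-! ### Casts -/

theorem cast_qf (R : Type) [CommRing R] {s : ℕ} (f : Mon s → ℤ) (x : Fin s → ℤ) :
    ((qf f x : ℤ) : R) = qf (cf R f) (fun i => (x i : R)) := by
  simp [qf, cf]

theorem cast_dq (R : Type) [CommRing R] {s : ℕ} (f : Mon s → ℤ) (x : Fin s → ℤ) (j : Fin s) :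
    ((dq f x j : ℤ) : R) = dq (cf R f) (fun i => (x i : R)) j := by
  simp only [dq, cf, Int.cast_sum, Int.cast_mul, Int.cast_add]
  refine Finset.sum_congr rfl fun p _ => ?_
  congr 1
  congr 1 <;> split_ifs <;> simp

theorem cf_int {s : ℕ} (f : Mon s → ℤ) : cf ℤ f = f := by
  funext p; simp [cf]

theorem cast_mv (R : Type) [CommRing R] {s : ℕ} (T : Matrix (Fin s) (Fin s) ℤ) (x : Fin s → ℤ)
    (i : Fin s) : ((mv T x i : ℤ) : R) = mv T (fun j => (x j : R)) i := by
  simp [mv]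

theorem cast_pt (R : Type) [CommRing R] {n : ℕ} (a b : ℤ) (v : Fin n → ℤ) :
    (fun i => ((pt a b v i : ℤ) : R)) = pt (a : R) (b : R) (fun i => (v i : R)) := by
  funext i
  refine Fin.cases ?_ (fun j => ?_) i
  · simp [pt]
  · refine Fin.cases ?_ (fun k => ?_) j
    · simp [pt]
    · simp [pt]

theorem cast_cv (R : Type) [CommRing R] {n : ℕ} (a : ℤ) (v : Fin n → ℤ) :
    (fun i => ((cv a v i : ℤ) : R)) = cv (a : R) (fun i => (v i : R)) := by
  funext i
  refine Fin.cases ?_ (fun j => ?_) i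
  · simp [cv]
  · simp [cv]

theorem cast_xt (R : Type) [CommRing R] {n : ℕ} {F : Mon (n + 2) → ℤ} (N : NF F) (c : ℤ)
    (v : Fin n → ℤ) :
    (fun i => ((xt N c v i : ℤ) : R)) = xt N (c : R) (fun i => (v i : R)) := by
  funext i
  unfold xt
  rw [cast_mv, cast_pt]
  congr 2
  · push_cast; rfl
  · rw [cf_int]
    push_cast
    rw [cast_qf, cast_cv]
  · funext i
    push_cast
    rfl

theorem cast_gG (R : Type) [CommRing R] {n : ℕ} {F : Mon (n + 2) → ℤ} (N : NF F)
    (f : Mon (n + 2) → ℤ) (c : ℤ) (v : Fin n → ℤ) :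
    ((gG N f c v : ℤ) : R) = gG N (cf R f) (c : R) (fun i => (v i : R)) := by
  unfold gG
  rw [cast_qf, cast_xt]

theorem cast_dG (R : Type) [CommRing R] {n : ℕ} {F : Mon (n + 2) → ℤ} (N : NF F)
    (f : Mon (n + 2) → ℤ) (c : ℤ) (v : Fin n → ℤ) (i : Fin n) :
    ((dG N f c v i : ℤ) : R) = dG N (cf R f) (c : R) (fun i => (v i : R)) i := by
  unfold dG
  push_cast
  refine Finset.sum_congr rfl fun l _ => ?_
  rw [cast_dq, cast_xt, cast_mv, cast_pt]
  congr 3
  · simp
  · rw [cf_int]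
    push_cast
    rw [cast_dq, cast_cv]
  · funext k
    split_ifs <;> simp

/-! ### Congruences -/

theorem gG_congr {n : ℕ} {F : Mon (n + 2) → ℤ} (N : NF F) (f : Mon (n + 2) → ℤ) (c : ℤ) (M : ℕ)
    (v w : Fin n → ℤ) (h : ∀ i, (M : ℤ) ∣ w i - v i) : (M : ℤ) ∣ gG N f c w - gG N f c v := by
  rw [← ZMod.intCast_eq_intCast_iff_dvd_sub, cast_gG, cast_gG]
  have : (fun j => (v j : ZMod M)) = fun j => (w j : ZMod M) := by
    funext j
    exact (ZMod.intCast_eq_intCast_iff_dvd_sub _ _ _).2 (h j)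
  rw [this]

theorem dG_congr {n : ℕ} {F : Mon (n + 2) → ℤ} (N : NF F) (f : Mon (n + 2) → ℤ) (c : ℤ) (M : ℕ)
    (v w : Fin n → ℤ) (h : ∀ i, (M : ℤ) ∣ w i - v i) (i : Fin n) :
    (M : ℤ) ∣ dG N f c w i - dG N f c v i := by
  rw [← ZMod.intCast_eq_intCast_iff_dvd_sub, cast_dG, cast_dG]
  have : (fun j => (v j : ZMod M)) = fun j => (w j : ZMod M) := by
    funext j
    exact (ZMod.intCast_eq_intCast_iff_dvd_sub _ _ _).2 (h j)
  rw [this]

theorem qf_congr {s : ℕ} (f : Mon s → ℤ) (M : ℕ) (v w : Fin s → ℤ)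
    (h : ∀ i, (M : ℤ) ∣ w i - v i) : (M : ℤ) ∣ qf f w - qf f v := by
  rw [← ZMod.intCast_eq_intCast_iff_dvd_sub, cast_qf, cast_qf]
  have : (fun j => (v j : ZMod M)) = fun j => (w j : ZMod M) := by
    funext j
    exact (ZMod.intCast_eq_intCast_iff_dvd_sub _ _ _).2 (h j)
  rw [this]

/-! ### Scaling -/

theorem qf_smul {R : Type} [CommRing R] {s : ℕ} (f : Mon s → R) (a : R) (x : Fin s → R) :
    qf f (fun i => a * x i) = a ^ 2 * qf f x := by
  unfold qf
  rw [Finset.mul_sum]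
  exact Finset.sum_congr rfl fun p _ => by ring

theorem cv_smul {R : Type} [CommRing R] {n : ℕ} (a c : R) (v : Fin n → R) :
    cv (c * a) (fun i => a * v i) = fun i => a * cv c v i := by
  funext i
  refine Fin.cases ?_ (fun j => ?_) i
  · simp [cv, mul_comm]
  · simp [cv]

theorem gG_smul {R : Type} [CommRing R] {n : ℕ} {F : Mon (n + 2) → ℤ} (N : NF F)
    (f : Mon (n + 2) → R) (a c : R) (v : Fin n → R) :
    gG N f (c * a) (fun i => a * v i) = a ^ 4 * gG N f c v := by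
  have h : xt N (c * a) (fun i => a * v i) = fun i => a ^ 2 * xt N c v i := by
    funext i
    unfold xt
    rw [cv_smul, qf_smul]
    unfold mv
    rw [Finset.mul_sum]
    refine Finset.sum_congr rfl fun l _ => ?_
    refine Fin.cases ?_ (fun j => ?_) l
    · simp only [pt, Fin.cons_zero]; ring
    · refine Fin.cases ?_ (fun k => ?_) j
      · simp only [pt, Fin.cons_succ, Fin.cons_zero]; ring
      · simp only [pt, Fin.cons_succ]; ring
  unfold gG
  rw [h, qf_smul]
  ring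

/-! ### The expansion in one variable -/

theorem sum_dq {R : Type} [CommRing R] {s : ℕ} (f : Mon s → R) (y h : Fin s → R) :
    ∑ j, dq f y j * h j = ∑ p : Mon s, f p * (y p.1.2 * h p.1.1 + y p.1.1 * h p.1.2) := by
  unfold dq
  simp only [Finset.sum_mul]
  rw [Finset.sum_comm]
  refine Finset.sum_congr rfl fun p _ => ?_
  have h1 : ∀ j : Fin s, f p * ((if p.1.1 = j then y p.1.2 else 0) +
      (if p.1.2 = j then y p.1.1 else 0)) * h j =
      (if p.1.1 = j then f p * y p.1.2 * h j else 0) +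
        (if p.1.2 = j then f p * y p.1.1 * h j else 0) := by
    intro j
    split_ifs <;> ring
  simp only [h1]
  rw [Finset.sum_add_distrib, Finset.sum_ite_eq, Finset.sum_ite_eq]
  simp only [Finset.mem_univ, if_true]
  ring

theorem qf_add {R : Type} [CommRing R] {s : ℕ} (f : Mon s → R) (y h : Fin s → R) :
    qf f (fun j => y j + h j) = qf f y + ∑ j, dq f y j * h j + qf f h := by
  rw [sum_dq]
  unfold qf
  rw [← Finset.sum_add_distrib, ← Finset.sum_add_distrib]
  refine Finset.sum_congr rfl fun p _ => ?_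
  ring

theorem gG_add {n : ℕ} {F : Mon (n + 2) → ℤ} (N : NF F) (f : Mon (n + 2) → ℤ) (c : ℤ)
    (w : Fin n → ℤ) (i : Fin n) (d : ℤ) : ∃ R : ℤ,
    gG N f c (fun k => w k + if k = i then d else 0) =
      gG N f c w + d * dG N f c w i + d ^ 2 * R := by
  -- the quadratic form `q`
  set e : Fin (n + 1) → ℤ := fun k => if k = i.succ then 1 else 0 with he
  have hq : qf N.q (cv c (fun k => w k + if k = i then d else 0)) =
      qf N.q (cv c w) + d * dq N.q (cv c w) i.succ + d ^ 2 * qf N.q e := by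
    have h1 : cv c (fun k => w k + if k = i then d else 0) =
        fun k => cv c w k + d * e k := by
      funext k
      refine Fin.cases ?_ (fun j => ?_) k
      · simp [cv, he, (Fin.succ_ne_zero i).symm]
      · simp only [cv, Fin.cons_succ, he, Fin.succ_inj]
        split_ifs <;> simp
    rw [h1, qf_add, qf_smul]
    congr 1
    congr 1
    rw [Finset.sum_eq_single i.succ]
    · simp only [he, if_true]; ring
    · intro k _ hk
      simp [he, hk]
    · intro h
      exact absurd (Finset.mem_univ _) h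
  set H : Fin (n + 2) → ℤ := mv N.T (pt 0 (-dq (cf ℤ N.q) (cv c w) i.succ)
    (fun k => if k = i then (N.mu : ℤ) * c else 0)) with hH
  set E : Fin (n + 2) → ℤ := mv N.T (pt 0 (-qf N.q e) (fun _ => 0)) with hE
  have hx : xt N c (fun k => w k + if k = i then d else 0) =
      fun l => xt N c w l + d * (H l + d * E l) := by
    funext l
    rw [hH, hE]
    unfold xt
    simp only [cf_int]
    rw [hq]
    unfold mv
    rw [Finset.mul_sum, ← Finset.sum_add_distrib, Finset.mul_sum, ← Finset.sum_add_distrib]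
    refine Finset.sum_congr rfl fun a _ => ?_
    refine Fin.cases ?_ (fun j => ?_) a
    · simp only [pt, Fin.cons_zero]; ring
    · refine Fin.cases ?_ (fun k => ?_) j
      · simp only [pt, Fin.cons_succ, Fin.cons_zero]; ring
      · simp only [pt, Fin.cons_succ]
        split_ifs <;> simp <;> ring
  refine ⟨∑ l, dq f (xt N c w) l * E l + qf f (fun l => H l + d * E l), ?_⟩
  unfold gG
  rw [hx, qf_add, qf_smul]
  have h2 : ∑ l, dq f (xt N c w) l * (d * (H l + d * E l)) =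
      d * dG N f c w i + d ^ 2 * ∑ l, dq f (xt N c w) l * E l := by
    unfold dG
    simp only [Int.cast_id]
    rw [← hH, Finset.mul_sum, Finset.mul_sum, ← Finset.sum_add_distrib]
    exact Finset.sum_congr rfl fun l _ => by ring
  rw [h2]
  ring

/-! ### Hensel -/

theorem hensel {n : ℕ} {F : Mon (n + 2) → ℤ} (N : NF F) (f : Mon (n + 2) → ℤ) (c : ℤ) (p t τ : ℕ)
    (hp : p.Prime) (hτ : τ < t) (w : Fin n → ℤ) (i : Fin n) (h1 : (p : ℤ) ^ τ ∣ dG N f c w i)
    (h2 : ¬ (p : ℤ) ^ (τ + 1) ∣ dG N f c w i) (h3 : (p : ℤ) ^ (2 * t) ∣ gG N f c w) (r : ℕ) :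
    ∃ d : ℤ, (p : ℤ) ^ t ∣ d ∧
      (p : ℤ) ^ (2 * t + r) ∣ gG N f c (fun k => w k + if k = i then d else 0) := by
  induction r with
  | zero =>
    refine ⟨0, dvd_zero _, ?_⟩
    simpa using h3
  | succ r ih =>
    obtain ⟨d, hd, hG⟩ := ih
    set y : Fin n → ℤ := fun k => w k + if k = i then d else 0 with hy
    have hyw : ∀ k, ((p ^ t : ℕ) : ℤ) ∣ y k - w k := by
      intro k
      have : y k - w k = if k = i then d else 0 := by
        simp only [hy]; ring
      rw [this]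
      push_cast
      split_ifs
      · exact hd
      · exact dvd_zero _
    have hdc := dG_congr N f c (p ^ t) w y hyw i
    push_cast at hdc
    have h4 : (p : ℤ) ^ τ ∣ dG N f c y i := by
      have := dvd_add ((pow_dvd_pow (p : ℤ) hτ.le).trans hdc) h1
      rwa [sub_add_cancel] at this
    obtain ⟨u, hu⟩ := h4
    have hpu : ¬ (p : ℤ) ∣ u := by
      rintro ⟨x, hx⟩
      apply h2
      have h5 : (p : ℤ) ^ (τ + 1) ∣ dG N f c y i := ⟨x, by rw [hu, hx, pow_succ]; ring⟩
      have h6 := dvd_sub h5 ((pow_dvd_pow (p : ℤ) (Nat.succ_le_of_lt hτ)).trans hdc)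
      rwa [sub_sub_cancel] at h6
    obtain ⟨v, u', huv⟩ : IsCoprime (p : ℤ) u :=
      (Nat.prime_iff_prime_int.1 hp).irreducible.coprime_iff_not_dvd.2 hpu
    obtain ⟨φ, hφ⟩ := hG
    set P : ℤ := (p : ℤ) ^ (2 * t + r - τ) with hP
    have hPτ : P * (p : ℤ) ^ τ = (p : ℤ) ^ (2 * t + r) := by
      rw [hP, ← pow_add]
      congr 1
      omega
    set δ : ℤ := -(P * u' * φ) with hδ
    obtain ⟨R, hR⟩ := gG_add N f c y i δ
    refine ⟨d + δ, dvd_add hd ?_, ?_⟩
    · rw [hδ, dvd_neg]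
      exact Dvd.dvd.mul_right (Dvd.dvd.mul_right (pow_dvd_pow _ (by omega)) _) _
    · have e1 : (fun k => w k + if k = i then d + δ else 0) =
          fun k => y k + if k = i then δ else 0 := by
        funext k
        simp only [hy]
        split_ifs <;> ring
      rw [e1, hR, hφ, hu]
      have e2 : (p : ℤ) ^ (2 * t + (r + 1)) ∣ δ ^ 2 * R := by
        refine Dvd.dvd.mul_right ?_ _
        rw [hδ, neg_sq, mul_pow, mul_pow]
        refine Dvd.dvd.mul_right (Dvd.dvd.mul_right ?_ _) _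
        rw [hP, ← pow_mul]
        exact pow_dvd_pow _ (by omega)
      refine dvd_add ?_ e2
      refine ⟨v * φ, ?_⟩
      have e3 : δ * ((p : ℤ) ^ τ * u) = -((p : ℤ) ^ (2 * t + r) * (u' * u) * φ) := by
        rw [hδ, ← hPτ]; ring
      rw [e3, show u' * u = 1 - v * p from by linarith]
      rw [show (p : ℤ) ^ (2 * t + (r + 1)) = (p : ℤ) ^ (2 * t + r) * p from by
        rw [← pow_succ]; rfl]
      ring

/-! ### The condition `IP` -/

theorem ip_tr {n : ℕ} {F : Mon (n + 2) → ℤ} (N : NF F) (p t : ℕ) (c a : ℤ) (hp : p.Prime)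
    (ha : ¬ (p : ℤ) ∣ a) (ht : ¬ (p : ℤ) ^ t ∣ N.mu * c) (u w : Fin n → ℤ)
    (hw : ∀ i, (p : ℤ) ^ t ∣ w i - a * u i) (h : IP N p c u) : IP N p (c * a) w := by
  have hcop : ∀ k : ℕ, IsCoprime ((p : ℤ) ^ k) a := fun k =>
    ((Nat.prime_iff_prime_int.1 hp).irreducible.coprime_iff_not_dvd.2 ha).pow_left
  have hq : (p : ℤ) ^ t ∣ qf N.q (cv (c * a) w) - a ^ 2 * qf N.q (cv c u) := by
    have h1 := qf_congr N.q (p ^ t) (cv (c * a) (fun i => a * u i)) (cv (c * a) w) (by
      intro i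
      push_cast
      refine Fin.cases ?_ (fun j => ?_) i
      · simp [cv]
      · simpa [cv] using hw j)
    rw [cv_smul, qf_smul] at h1
    push_cast at h1
    exact h1
  have hk : ∀ k : ℕ, (p : ℤ) ^ k ∣ N.mu * (c * a) → k < t ∧ (p : ℤ) ^ k ∣ N.mu * c := by
    intro k hk
    rw [← mul_assoc] at hk
    have h1 : (p : ℤ) ^ k ∣ N.mu * c := (hcop k).dvd_of_dvd_mul_right hk
    refine ⟨?_, h1⟩
    by_contra hcon
    exact ht ((pow_dvd_pow _ (not_lt.1 hcon)).trans h1)
  have ht0 : 0 < t := by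
    rcases Nat.eq_zero_or_pos t with h0 | h0
    · rw [h0] at ht; simp at ht
    · exact h0
  refine ⟨fun k hk1 => ?_, fun hc hu hcon => ?_⟩
  · obtain ⟨h1, h2⟩ := hk k hk1
    have h3 := h.1 k h2
    have h4 := dvd_add ((pow_dvd_pow (p : ℤ) h1.le).trans hq) (Dvd.dvd.mul_left h3 (a ^ 2))
    rwa [sub_add_cancel] at h4
  · have hc' : (p : ℤ) ∣ c := by
      have := hcop 1
      rw [pow_one] at this
      exact this.dvd_of_dvd_mul_right hc
    have hu' : ∀ i, (p : ℤ) ∣ u i := by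
      intro i
      have h1 : (p : ℤ) ∣ a * u i := by
        have := dvd_sub (hu i) ((dvd_pow_self (p : ℤ) ht0.ne').trans (hw i))
        rwa [sub_sub_cancel] at this
      have := hcop 1
      rw [pow_one] at this
      exact this.dvd_of_dvd_mul_left h1
    refine h.2 hc' hu' fun k hk1 => ?_
    have h2 : (p : ℤ) ^ k ∣ N.mu * (c * a) := by
      rw [← mul_assoc]
      exact Dvd.dvd.mul_right hk1 _
    obtain ⟨h3, _⟩ := hk k h2
    have h4 := hcon k h2
    have h5 := dvd_sub h4 ((pow_dvd_pow (p : ℤ) (Nat.succ_le_of_lt h3)).trans hq)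
    rw [sub_sub_cancel] at h5
    have h6 : IsCoprime ((p : ℤ) ^ (k + 1)) (a ^ 2) := (hcop (k + 1)).pow_right
    exact h6.dvd_of_dvd_mul_left h5

theorem pf_HC1 : T_HC1 := by
  classical
  intro n F N f p t j k m' hn hp hm' htk hR
  obtain ⟨u, ht, hIP, hG, i, hi⟩ := hR
  set c : ℤ := (p : ℤ) ^ j with hc
  have hp0 : (p : ℤ) ≠ 0 := by exact_mod_cast hp.ne_zero
  have ha : ¬ (p : ℤ) ∣ (m' : ℤ) := fun h => hm' (Int.natCast_dvd_natCast.1 h)
  have hex : ∃ r : ℕ, ¬ (p : ℤ) ^ r ∣ dG N f c u i := ⟨t, hi⟩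
  obtain ⟨τ, hτt, hτ1, hτ2⟩ : ∃ τ : ℕ, τ < t ∧ (p : ℤ) ^ τ ∣ dG N f c u i ∧
      ¬ (p : ℤ) ^ (τ + 1) ∣ dG N f c u i := by
    have hf := Nat.find_spec hex
    have hpos : Nat.find hex ≠ 0 := by
      intro h0
      rw [h0] at hf
      simp at hf
    obtain ⟨τ, hτ⟩ := Nat.exists_eq_succ_of_ne_zero hpos
    refine ⟨τ, ?_, ?_, ?_⟩
    · have : Nat.find hex ≤ t := Nat.find_min' hex hi
      omega
    · have := Nat.find_min hex (m := τ) (by omega)
      exact not_not.1 this
    · rw [hτ] at hf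
      exact hf
  set m := k - 2 * t with hm
  have hmk : 2 * t + m = k := by omega
  let xw : ({l : Fin n // l ≠ i} → Fin (p ^ m)) → Fin n → ℤ := fun z l =>
    u l + (p : ℤ) ^ (2 * t) * (if h : l ≠ i then ((z ⟨l, h⟩ : ℕ) : ℤ) else 0)
  have hxw : ∀ z l, ((p ^ (2 * t) : ℕ) : ℤ) ∣ xw z l - u l := by
    intro z l
    refine ⟨(if h : l ≠ i then ((z ⟨l, h⟩ : ℕ) : ℤ) else 0), ?_⟩
    simp only [xw]
    push_cast
    ring
  have hy : ∀ z, ∃ y : Fin n → ℤ, (∀ l, l ≠ i → y l = xw z l) ∧ (∀ l, (p : ℤ) ^ t ∣ y l - u l) ∧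
      (p : ℤ) ^ k ∣ gG N f c y := by
    intro z
    have h1 := gG_congr N f c (p ^ (2 * t)) u (xw z) (hxw z)
    have h2 := dG_congr N f c (p ^ (2 * t)) u (xw z) (hxw z) i
    push_cast at h1 h2
    have h3 : (p : ℤ) ^ (2 * t) ∣ gG N f c (xw z) := by
      have := dvd_add h1 hG
      rwa [sub_add_cancel] at this
    have h4 : (p : ℤ) ^ τ ∣ dG N f c (xw z) i := by
      have := dvd_add ((pow_dvd_pow (p : ℤ) (by omega : τ ≤ 2 * t)).trans h2) hτ1
      rwa [sub_add_cancel] at this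
    have h5 : ¬ (p : ℤ) ^ (τ + 1) ∣ dG N f c (xw z) i := by
      intro h6
      apply hτ2
      have := dvd_sub h6 ((pow_dvd_pow (p : ℤ) (by omega : τ + 1 ≤ 2 * t)).trans h2)
      rwa [sub_sub_cancel] at this
    obtain ⟨d, hd1, hd2⟩ := hensel N f c p t τ hp hτt (xw z) i h4 h5 h3 m
    rw [hmk] at hd2
    refine ⟨_, fun l hl => ?_, fun l => ?_, hd2⟩
    · show xw z l + (if l = i then d else 0) = xw z l
      rw [if_neg hl, add_zero]
    · have h6 : (p : ℤ) ^ t ∣ xw z l - u l := by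
        have := hxw z l
        push_cast at this
        exact (pow_dvd_pow _ (by omega)).trans this
      show (p : ℤ) ^ t ∣ xw z l + (if l = i then d else 0) - u l
      have h7 : (p : ℤ) ^ t ∣ (if l = i then d else 0) := by
        split_ifs
        · exact hd1
        · exact dvd_zero _
      have := dvd_add h6 h7
      rwa [show xw z l - u l + (if l = i then d else 0) =
        xw z l + (if l = i then d else 0) - u l from by ring] at this
  choose y hy1 hy2 hy3 using hy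
  have hpk : (0 : ℤ) < ((p ^ k : ℕ) : ℤ) := by
    have := pow_pos hp.pos k
    exact_mod_cast this
  let g : ({l : Fin n // l ≠ i} → Fin (p ^ m)) → Fin n → ℤ :=
    fun z l => ((m' : ℤ) * y z l) % ((p ^ k : ℕ) : ℤ)
  have hgc : ∀ z l, ((p ^ k : ℕ) : ℤ) ∣ g z l - (m' : ℤ) * y z l := by
    intro z l
    simp only [g]
    rw [Int.emod_def]
    exact ⟨-(((m' : ℤ) * y z l) / ((p ^ k : ℕ) : ℤ)), by ring⟩
  have hmem : ∀ z, g z ∈ UU N (p ^ j * m') (p ^ k) f := by
    intro z
    unfold UU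
    rw [Finset.mem_filter, Fintype.mem_piFinset]
    refine ⟨fun l => ?_, ?_, ?_⟩
    · rw [Finset.mem_Ico]
      exact ⟨Int.emod_nonneg _ hpk.ne', Int.emod_lt_of_pos _ hpk⟩
    · have h1 := gG_congr N f ((p ^ j * m' : ℕ) : ℤ) (p ^ k) (fun l => (m' : ℤ) * y z l) (g z)
        (hgc z)
      have h2 : gG N f ((p ^ j * m' : ℕ) : ℤ) (fun l => (m' : ℤ) * y z l) =
          (m' : ℤ) ^ 4 * gG N f c (y z) := by
        have := gG_smul N f (m' : ℤ) c (y z)
        rw [← this, hc]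
        push_cast
        rfl
      rw [h2] at h1
      have h3 := dvd_add h1 (Dvd.dvd.mul_left (by
        have := hy3 z
        push_cast
        exact this : ((p ^ k : ℕ) : ℤ) ∣ gG N f c (y z)) ((m' : ℤ) ^ 4))
      rwa [sub_add_cancel] at h3
    · intro p' hp' hpp
      have hpe : p' = p := (Nat.prime_dvd_prime_iff_eq hp' hp).1 (hp'.dvd_of_dvd_pow hpp)
      subst hpe
      have h1 := ip_tr N p' t c (m' : ℤ) hp ha ht u (g z) (by
        intro l
        have e1 := hgc z l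
        push_cast at e1
        have e2 : (p' : ℤ) ^ t ∣ g z l - (m' : ℤ) * y z l :=
          (pow_dvd_pow _ (by omega)).trans e1
        have e3 := dvd_add e2 (Dvd.dvd.mul_left (hy2 z l) (m' : ℤ))
        rwa [show g z l - (m' : ℤ) * y z l + (m' : ℤ) * (y z l - u l) =
          g z l - (m' : ℤ) * u l from by ring] at e3) hIP
      rw [hc] at h1
      push_cast
      exact h1
  have hinj : Function.Injective g := by
    intro z z' h
    funext ⟨l, hl⟩
    have h1 : g z l = g z' l := congrFun h l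
    have h2 : (p : ℤ) ^ k ∣ (m' : ℤ) * (y z l - y z' l) := by
      have e1 := hgc z l
      have e2 := hgc z' l
      rw [h1] at e1
      have e3 := dvd_sub e2 e1
      push_cast at e3
      rwa [show g z' l - (m' : ℤ) * y z' l - (g z' l - (m' : ℤ) * y z l) =
        (m' : ℤ) * (y z l - y z' l) from by ring] at e3
    have h3 : (p : ℤ) ^ k ∣ y z l - y z' l :=
      (((Nat.prime_iff_prime_int.1 hp).irreducible.coprime_iff_not_dvd.2 ha).pow_left).dvd_of_dvd_mul_left
        h2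
    rw [hy1 z l hl, hy1 z' l hl] at h3
    simp only [xw] at h3
    rw [dif_pos hl, dif_pos hl] at h3
    have h4 : (p : ℤ) ^ (2 * t) * (p : ℤ) ^ m ∣ (p : ℤ) ^ (2 * t) *
        (((z ⟨l, hl⟩ : ℕ) : ℤ) - ((z' ⟨l, hl⟩ : ℕ) : ℤ)) := by
      rw [← pow_add, hmk]
      rwa [show u l + (p : ℤ) ^ (2 * t) * ((z ⟨l, hl⟩ : ℕ) : ℤ) -
          (u l + (p : ℤ) ^ (2 * t) * ((z' ⟨l, hl⟩ : ℕ) : ℤ)) =
          (p : ℤ) ^ (2 * t) * (((z ⟨l, hl⟩ : ℕ) : ℤ) - ((z' ⟨l, hl⟩ : ℕ) : ℤ)) from by ring]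
        at h3
    have h5 := Int.dvd_of_mul_dvd_mul_left (pow_ne_zero _ hp0) h4
    have h6 : ((z ⟨l, hl⟩ : ℕ) : ℤ) - ((z' ⟨l, hl⟩ : ℕ) : ℤ) = 0 := by
      refine Int.eq_zero_of_abs_lt_dvd h5 ?_
      have e1 := (z ⟨l, hl⟩).isLt
      have e2 := (z' ⟨l, hl⟩).isLt
      have e3 : ((z ⟨l, hl⟩ : ℕ) : ℤ) < (p : ℤ) ^ m := by exact_mod_cast e1
      have e4 : ((z' ⟨l, hl⟩ : ℕ) : ℤ) < (p : ℤ) ^ m := by exact_mod_cast e2
      rw [abs_lt]
      constructor <;> omega
    apply Fin.ext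
    have := sub_eq_zero.1 h6
    exact_mod_cast this
  have hcard : Fintype.card ({l : Fin n // l ≠ i} → Fin (p ^ m)) ≤
      (UU N (p ^ j * m') (p ^ k) f).card := by
    rw [← Finset.card_univ]
    exact Finset.card_le_card_of_injOn g (fun z _ => hmem z) (fun z _ z' _ h => hinj h)
  refine le_trans ?_ hcard
  have hcl : Fintype.card {l : Fin n // l ≠ i} = n - 1 := by
    rw [Fintype.card_subtype_compl, Fintype.card_fin, Fintype.card_subtype_eq]
  rw [Fintype.card_fun, Fintype.card_fin, hcl, ← pow_mul]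

end Pool.Agent.H70.HFQ.HC
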