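import Pool.Agent.H34.FQ.Targets

/-!
# Pairs of points with small minors divisible by a small number (row NSM)
-/

set_option autoImplicit false

open Finset Pool.Agent.H32.RQ Pool.Agent.H34.FQ

namespace Pool.Agent.H70.HFQ

theorem cast_qf (R : Type) [CommRing R] {s : ℕ} (f : Mon s → ℤ) (x : Fin s → ℤ) :
    ((qf f x : ℤ) : R) = qf (cf R f) (fun i => (x i : R)) := by
  simp [qf, cf]

/-- the prime divides the value of `r` -/
theorem dvd_r {n : ℕ} {F : Mon (n + 2) → ℤ} (N : NF F) (l : ℕ) (e : Fin (n + 2) → ℤ)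
    (h0 : (l : ℤ) ∣ e 0) (he : N.mu * e 0 * e 1 + qf N.q (cv (e 0) (vt e)) = 0) :
    (l : ℤ) ∣ qf N.r (vt e) := by
  have h1 : ((N.mu * e 0 * e 1 + qf N.q (cv (e 0) (vt e)) : ℤ) : ZMod l) = 0 := by
    rw [he]; simp
  have h2 : ((e 0 : ℤ) : ZMod l) = 0 := (ZMod.intCast_zmod_eq_zero_iff_dvd _ _).2 h0
  push_cast at h1
  rw [cast_qf, h2] at h1
  have h3 : (fun i => ((cv (e 0) (vt e) i : ℤ) : ZMod l)) =
      cv (0 : ZMod l) (fun i => ((vt e i : ℤ) : ZMod l)) := by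
    funext i
    refine Fin.cases ?_ (fun j => ?_) i
    · simp [cv, h2]
    · simp [cv]
  rw [h3, N.hr] at h1
  rw [← ZMod.intCast_zmod_eq_zero_iff_dvd, cast_qf]
  simpa using h1

theorem det_fiber {n : ℕ} {F : Mon (n + 2) → ℤ} (N : NF F) (e e' : Fin (n + 2) → ℤ)
    (h0 : e 0 ≠ 0) (h : e 0 = e' 0) (hv : vt e = vt e')
    (he : N.mu * e 0 * e 1 + qf N.q (cv (e 0) (vt e)) = 0)
    (he' : N.mu * e' 0 * e' 1 + qf N.q (cv (e' 0) (vt e')) = 0) : e = e' := by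
  rw [← h, ← hv] at he'
  have h1 : N.mu * e 0 * (e 1 - e' 1) = 0 := by linarith
  have h2 : e 1 = e' 1 := by
    rcases mul_eq_zero.1 h1 with h2 | h2
    · rcases mul_eq_zero.1 h2 with h3 | h3
      · exact absurd h3 N.mu0
      · exact absurd h3 h0
    · linarith
  funext i
  refine Fin.cases h (fun j => ?_) i
  refine Fin.cases h2 (fun k => ?_) j
  exact congrFun hv k

theorem mnr_of_gm {s : ℕ} {x y : Fin s → ℤ} {g : ℕ} (h : g ∣ gm x y) (i j : Fin s) :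
    (g : ℤ) ∣ mnr x y i j := by
  have h1 : gm x y ∣ (mnr x y i j).natAbs := by
    unfold gm
    exact Finset.gcd_dvd (f := fun p : Fin s × Fin s => (mnr x y p.1 p.2).natAbs)
      (Finset.mem_univ (i, j))
  exact Int.natCast_dvd.2 (h.trans h1)

theorem mnr_of_dm {s : ℕ} {x y : Fin s → ℤ} {D : ℕ} (h : dm x y ≤ D) (i j : Fin s) :
    |mnr x y i j| ≤ D := by
  have h1 : (mnr x y i j).natAbs ≤ dm x y := by
    unfold dm
    exact Finset.le_sup (f := fun p : Fin s × Fin s => (mnr x y p.1 p.2).natAbs)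
      (Finset.mem_univ (i, j))
  have h2 : (mnr x y i j).natAbs ≤ D := h1.trans h
  rw [Int.abs_eq_natAbs]
  exact_mod_cast h2

/-- the residue classes -/
theorem cls (g m l : ℕ) (hg : 1 ≤ g) (hl : Nat.Coprime l g) (c' v a b : ℤ)
    (ha : (g : ℤ) ∣ (m * l : ℤ) * a - v * c') (hb : (g : ℤ) ∣ (m * l : ℤ) * b - v * c') :
    ((g / Nat.gcd g m : ℕ) : ℤ) ∣ a - b := by
  have h1 : (g : ℤ) ∣ (m * l : ℤ) * (a - b) := by
    have := dvd_sub ha hb
    have e : (m * l : ℤ) * a - v * c' - ((m * l : ℤ) * b - v * c') = (m * l : ℤ) * (a - b) := by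
      ring
    rwa [e] at this
  have h2 : (g : ℤ) ∣ (m : ℤ) * (a - b) := by
    have e : (m * l : ℤ) * (a - b) = (l : ℤ) * ((m : ℤ) * (a - b)) := by ring
    rw [e] at h1
    exact IsCoprime.dvd_of_dvd_mul_left (Nat.isCoprime_iff_coprime.2 hl.symm) h1
  have hd : 0 < Nat.gcd g m := Nat.gcd_pos_of_pos_left _ hg
  obtain ⟨g', hg'⟩ := Nat.gcd_dvd_left g m
  obtain ⟨m', hm'⟩ := Nat.gcd_dvd_right g m
  have hq : g / Nat.gcd g m = g' := by
    conv_lhs => rw [hg']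
    have : (Nat.gcd g m * g') = Nat.gcd g m * g' := rfl
    rw [← hg'] 
    exact Nat.div_eq_of_eq_mul_right hd hg'
  have hcop : Nat.Coprime g' m' := by
    have := Nat.coprime_div_gcd_div_gcd (m := g) (n := m) hd
    rw [hq] at this
    have hq2 : m / Nat.gcd g m = m' := Nat.div_eq_of_eq_mul_right hd hm'
    rwa [hq2] at this
  rw [hq]
  have h3 : (Nat.gcd g m : ℤ) * (g' : ℤ) ∣ (Nat.gcd g m : ℤ) * ((m' : ℤ) * (a - b)) := by
    have e1 : (g : ℤ) = (Nat.gcd g m : ℤ) * (g' : ℤ) := by exact_mod_cast hg'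
    have e2 : (m : ℤ) = (Nat.gcd g m : ℤ) * (m' : ℤ) := by exact_mod_cast hm'
    rw [← e1, ← mul_assoc, ← e2]
    exact h2
  have h4 : (g' : ℤ) ∣ (m' : ℤ) * (a - b) :=
    (mul_dvd_mul_iff_left (by exact_mod_cast hd.ne' : (Nat.gcd g m : ℤ) ≠ 0)).1 h3
  exact IsCoprime.dvd_of_dvd_mul_left (Nat.isCoprime_iff_coprime.2 hcop) h4

/-- the box -/
theorem box (c v c' w : ℤ) (X D : ℕ) (hX : (X : ℤ) < c) (hX0 : 0 < X)
    (h : |c * w - v * c'| ≤ D) :
    (v * c') / c - (D / X : ℕ) ≤ w ∧ w ≤ (v * c') / c - (D / X : ℕ) + ((2 * (D / X) + 1 : ℕ) : ℤ) := by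
  have hc : 0 < c := lt_trans (by exact_mod_cast hX0) hX
  have h1 := abs_le.1 h
  have h2 : (v * c') / c * c ≤ v * c' := Int.ediv_mul_le _ hc.ne'
  have h3 : v * c' < ((v * c') / c + 1) * c := Int.lt_ediv_add_one_mul_self _ hc
  have h4 : (D : ℤ) < ((D / X : ℕ) + 1 : ℤ) * X := by
    have := Nat.lt_div_mul_add (a := D) hX0
    have e : D < (D / X + 1) * X := by linarith [Nat.succ_mul (D / X) X]
    exact_mod_cast e
  have h5 : (D : ℤ) < ((D / X : ℕ) + 1 : ℤ) * c :=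
    lt_of_lt_of_le h4 (mul_le_mul_of_nonneg_left hX.le (by positivity))
  set a := (v * c') / c
  set q : ℤ := ((D / X : ℕ) : ℤ) with hq
  constructor
  · by_contra hcon
    push Not at hcon
    have h6 : w + 1 ≤ a - q := by linarith
    have h7 : (w + 1) * c ≤ (a - q) * c := mul_le_mul_of_nonneg_right h6 hc.le
    nlinarith
  · have e : ((2 * (D / X) + 1 : ℕ) : ℤ) = 2 * q + 1 := by rw [hq]; push_cast; rfl
    rw [e]
    by_contra hcon
    push Not at hcon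
    have h6 : a + q + 2 ≤ w := by linarith
    have h7 : (a + q + 2) * c ≤ w * c := mul_le_mul_of_nonneg_right h6 hc.le
    nlinarith

open Classical in
/-- the number of the points over one value of the first coordinate -/
theorem fiber_le {n : ℕ} {C : ℝ}
    (hC : ∀ (r : Mon n → ℤ) (l g L : ℕ) (a b : Fin n → ℤ), l.Prime →
      ¬ (l : ℤ) ∣ (gr r).det → 1 ≤ g → ¬ l ∣ g →
      (((Fintype.piFinset fun i => Finset.Icc (b i) (b i + L)).filter fun v =>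
        (∀ i, (g : ℤ) ∣ v i - a i) ∧ (l : ℤ) ∣ qf r v).card : ℝ) ≤
        C * (((L : ℝ) / g + 1) ^ n / l + Real.sqrt l ^ n))
    (hC0 : 0 < C) {F : Mon (n + 2) → ℤ} (N : NF F) (m0 K X g D : ℕ) (hX : 1 ≤ X) (hg : 1 ≤ g)
    (hgX : g < X) (hdet : (gr N.r).det.natAbs ≤ X)
    (e : Fin (n + 2) → ℤ) (m l : ℕ) (hm : 1 ≤ m) (hl : l.Prime) (hlX : X < l)
    (he0 : e 0 = m * l) (m' l' : ℕ) (hm' : 1 ≤ m') (hl' : l'.Prime) (hl'X : X < l') :
    (((EX N m0 K X).filter fun e' => e' 0 = (m' : ℤ) * l' ∧ g ∣ gm e e' ∧ dm e e' ≤ D).card : ℝ) ≤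
      C * ((((2 * (D / X) + 1 : ℕ) : ℝ) / ((g / Nat.gcd g m : ℕ) : ℝ) + 1) ^ n / l' +
        Real.sqrt l' ^ n) := by
  by_cases hne : ((EX N m0 K X).filter
      fun e' => e' 0 = (m' : ℤ) * l' ∧ g ∣ gm e e' ∧ dm e e' ≤ D).Nonempty
  swap
  · rw [Finset.not_nonempty_iff_eq_empty.1 hne, Finset.card_empty, Nat.cast_zero]
    positivity
  obtain ⟨e₀, he₀⟩ := hne
  rw [Finset.mem_filter] at he₀
  have hcop : Nat.Coprime l g :=
    (Nat.Prime.coprime_iff_not_dvd hl).2 fun h => by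
      have := Nat.le_of_dvd (by omega) h
      omega
  have hgd : 0 < Nat.gcd g m := Nat.gcd_pos_of_pos_left _ hg
  have hg1 : 1 ≤ g / Nat.gcd g m := Nat.div_pos (Nat.gcd_le_left _ hg) hgd
  have hg1' : g / Nat.gcd g m ≤ g := Nat.div_le_self _ _
  have hnd : ¬ l' ∣ g / Nat.gcd g m := by
    intro h
    have := Nat.le_of_dvd (by omega) h
    omega
  have hnd2 : ¬ (l' : ℤ) ∣ (gr N.r).det := by
    intro h
    have h1 : l' ∣ (gr N.r).det.natAbs := Int.natCast_dvd.1 h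
    have h2 := Nat.le_of_dvd (Int.natAbs_pos.2 N.nd) h1
    omega
  have key := hC N.r l' (g / Nat.gcd g m) (2 * (D / X) + 1) (vt e₀)
    (fun i => (e i.succ.succ * (m' * l' : ℤ)) / (m * l : ℤ) - (D / X : ℕ)) hl' hnd2 hg1 hnd
  refine le_trans ?_ key
  have hinj : Set.InjOn (vt : (Fin (n + 2) → ℤ) → Fin n → ℤ)
      ((EX N m0 K X).filter fun e' => e' 0 = (m' : ℤ) * l' ∧ g ∣ gm e e' ∧ dm e e' ≤ D) := by
    intro x hx y hy hxy
    rw [Finset.mem_coe, Finset.mem_filter] at hx hy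
    obtain ⟨hx1, hx2, _⟩ := hx
    obtain ⟨hy1, hy2, _⟩ := hy
    have hx3 := (Finset.mem_filter.1 hx1).2.2.1
    have hy3 := (Finset.mem_filter.1 hy1).2.2.1
    refine det_fiber N x y ?_ (hx2.trans hy2.symm) hxy hx3 hy3
    rw [hx2]
    have : 0 < m' * l' := Nat.mul_pos (by omega) hl'.pos
    exact_mod_cast this.ne'
  rw [← Finset.card_image_of_injOn hinj]
  have hsub : (((EX N m0 K X).filter fun e' => e' 0 = (m' : ℤ) * l' ∧ g ∣ gm e e' ∧ dm e e' ≤ D).image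
      (vt : (Fin (n + 2) → ℤ) → Fin n → ℤ)) ⊆
      ((Fintype.piFinset fun i => Finset.Icc
        ((e i.succ.succ * (m' * l' : ℤ)) / (m * l : ℤ) - (D / X : ℕ))
        ((e i.succ.succ * (m' * l' : ℤ)) / (m * l : ℤ) - (D / X : ℕ) +
          ((2 * (D / X) + 1 : ℕ) : ℤ))).filter fun v =>
        (∀ i, ((g / Nat.gcd g m : ℕ) : ℤ) ∣ v i - vt e₀ i) ∧ (l' : ℤ) ∣ qf N.r v) := by
    intro v hv
    obtain ⟨x, hx, rfl⟩ := Finset.mem_image.1 hv
    rw [Finset.mem_filter] at hx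
    obtain ⟨hx1, hx2, hx3, hx4⟩ := hx
    have hx5 := (Finset.mem_filter.1 hx1).2.2.1
    rw [Finset.mem_filter, Fintype.mem_piFinset]
    refine ⟨fun i => ?_, fun i => ?_, ?_⟩
    · rw [Finset.mem_Icc]
      have h1 := mnr_of_dm hx4 0 i.succ.succ
      unfold mnr at h1
      rw [he0, hx2] at h1
      refine box (m * l) (e i.succ.succ) (m' * l') (vt x i) X D ?_ hX h1
      have : X < m * l := lt_of_lt_of_le hlX (Nat.le_mul_of_pos_left _ hm)
      exact_mod_cast this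
    · have h1 := mnr_of_gm hx3 0 i.succ.succ
      have h2 := mnr_of_gm he₀.2.2.1 0 i.succ.succ
      unfold mnr at h1 h2
      rw [he0, hx2] at h1
      rw [he0, he₀.2.1] at h2
      exact cls g m l hg hcop (m' * l') (e i.succ.succ) (vt x i) (vt e₀ i) h1 h2
    · refine dvd_r N l' x ?_ hx5
      rw [hx2]
      exact Dvd.intro_left _ rfl
  exact_mod_cast Finset.card_le_card hsub

/-- the analytic estimate -/
theorem real_bound (n m0 g g1 D X l : ℕ) (hn : 4 ≤ n) (hX : 1 ≤ X) (hg : 1 ≤ g) (hg1 : 1 ≤ g1)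
    (hm : g ≤ g1 * m0) (hl : X < l) (hl2 : l ≤ 4 * X) (s : ℝ) (hs : 1 ≤ s) (hsX : s ^ 4 = X)
    (hy : s ^ 3 ≤ (D : ℝ) / (X * g)) :
    (((2 * (D / X) + 1 : ℕ) : ℝ) / (g1 : ℝ) + 1) ^ n / l + Real.sqrt l ^ n ≤
      ((3 * m0 + 1 : ℝ) ^ n + 2 ^ n) * ((D : ℝ) / (X * g)) ^ n / X := by
  have hX0 : (0 : ℝ) < X := by exact_mod_cast hX
  have hg0 : (0 : ℝ) < g := by exact_mod_cast hg
  have hg10 : (0 : ℝ) < g1 := by exact_mod_cast hg1
  have hl0 : (0 : ℝ) < l := lt_trans hX0 (by exact_mod_cast hl)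
  have hm0 : (1 : ℝ) ≤ m0 := by
    have : 1 ≤ m0 := by
      rcases Nat.eq_zero_or_pos m0 with h | h
      · rw [h] at hm; omega
      · exact h
    exact_mod_cast this
  set y : ℝ := (D : ℝ) / (X * g) with hydef
  have hy1 : 1 ≤ y := le_trans (one_le_pow₀ hs) hy
  have h1 : ((2 * (D / X) + 1 : ℕ) : ℝ) / (g1 : ℝ) + 1 ≤ (3 * m0 + 1) * y := by
    have a1 : ((D / X : ℕ) : ℝ) ≤ (D : ℝ) / X := Nat.cast_div_le
    have a2 : (D : ℝ) / X = y * g := by
      rw [hydef]; field_simp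
    have a3 : (g : ℝ) ≤ g1 * m0 := by exact_mod_cast hm
    have a4 : ((D / X : ℕ) : ℝ) ≤ y * (g1 * m0) := by
      rw [a2] at a1
      exact a1.trans (mul_le_mul_of_nonneg_left a3 (by linarith))
    push_cast
    rw [div_add_one hg10.ne', div_le_iff₀ hg10]
    have a5 : (1 : ℝ) ≤ g1 := by exact_mod_cast hg1
    have a6 : 1 ≤ y * g1 := by nlinarith
    nlinarith [mul_le_mul a6 hm0 zero_le_one (by positivity : (0 : ℝ) ≤ y * g1),
      mul_nonneg (by linarith : (0 : ℝ) ≤ y - 1) hg10.le]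
  have h2 : (((2 * (D / X) + 1 : ℕ) : ℝ) / (g1 : ℝ) + 1) ^ n / l ≤
      (3 * m0 + 1 : ℝ) ^ n * y ^ n / X := by
    rw [← mul_pow]
    have b1 : (((2 * (D / X) + 1 : ℕ) : ℝ) / (g1 : ℝ) + 1) ^ n ≤ ((3 * m0 + 1) * y) ^ n :=
      pow_le_pow_left₀ (by positivity) h1 n
    have b2 : (X : ℝ) ≤ l := by exact_mod_cast hl.le
    exact div_le_div₀ (by positivity) b1 hX0 b2
  have h3 : Real.sqrt l ^ n ≤ 2 ^ n * y ^ n / X := by
    have c1 : Real.sqrt l ≤ 2 * s ^ 2 := by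
      rw [show (2 : ℝ) * s ^ 2 = Real.sqrt ((2 * s ^ 2) ^ 2) from
        (Real.sqrt_sq (by positivity)).symm]
      apply Real.sqrt_le_sqrt
      have : (l : ℝ) ≤ 4 * X := by exact_mod_cast hl2
      calc (l : ℝ) ≤ 4 * X := this
        _ = (2 * s ^ 2) ^ 2 := by rw [← hsX]; ring
    have c2 : Real.sqrt l ^ n ≤ (2 * s ^ 2) ^ n := pow_le_pow_left₀ (Real.sqrt_nonneg _) c1 n
    rw [le_div_iff₀ hX0]
    calc Real.sqrt l ^ n * X ≤ (2 * s ^ 2) ^ n * X := mul_le_mul_of_nonneg_right c2 hX0.le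
      _ = 2 ^ n * s ^ (2 * n + 4) := by
          rw [← hsX, mul_pow, ← pow_mul, pow_add]; ring
      _ ≤ 2 ^ n * s ^ (3 * n) := by
          apply mul_le_mul_of_nonneg_left _ (by positivity)
          exact pow_le_pow_right₀ hs (by omega)
      _ = 2 ^ n * (s ^ 3) ^ n := by rw [← pow_mul]
      _ ≤ 2 ^ n * y ^ n := by
          apply mul_le_mul_of_nonneg_left _ (by positivity)
          exact pow_le_pow_left₀ (by positivity) hy n
  calc (((2 * (D / X) + 1 : ℕ) : ℝ) / (g1 : ℝ) + 1) ^ n / l + Real.sqrt l ^ n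
      ≤ (3 * m0 + 1 : ℝ) ^ n * y ^ n / X + 2 ^ n * y ^ n / X := add_le_add h2 h3
    _ = ((3 * m0 + 1 : ℝ) ^ n + 2 ^ n) * y ^ n / X := by ring

theorem log_large : ∃ X₁ : ℕ, ∀ X : ℕ, X₁ ≤ X → 3 ≤ X ∧ Real.log X ^ 24 ≤ X ∧
    Real.log X ^ 3 < X := by
  have h1 := Real.isLittleO_pow_log_id_atTop (n := 24)
  have h2 := Real.isLittleO_pow_log_id_atTop (n := 3)
  have e1 := (h1.def (by norm_num : (0 : ℝ) < 1)).natCast_atTop
  have e2 := (h2.def (by norm_num : (0 : ℝ) < 1 / 2)).natCast_atTop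
  obtain ⟨X₁, hX₁⟩ := Filter.eventually_atTop.1 (e1.and e2)
  refine ⟨max X₁ 3, fun X hX => ?_⟩
  have hX3 : 3 ≤ X := le_trans (le_max_right _ _) hX
  have hX0 : (0 : ℝ) < X := by
    have : 0 < X := by omega
    exact_mod_cast this
  obtain ⟨a1, a2⟩ := hX₁ X (le_trans (le_max_left _ _) hX)
  simp only [id, Real.norm_eq_abs, abs_of_pos hX0, one_mul] at a1 a2
  refine ⟨hX3, (le_abs_self _).trans a1, lt_of_le_of_lt ((le_abs_self _).trans a2) ?_⟩
  linarith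

open Classical in
theorem pf_NSM (hGUP : T_GUP) (hCHE : T_CHE) (hECD : T_ECD) : T_NSM := by
  intro n F N m0 K hn
  obtain ⟨C₁, hC₁, hG⟩ := hGUP n (by omega)
  obtain ⟨c₂, C₂, hc₂, hC₂, hP⟩ := hCHE
  obtain ⟨C₃, hC₃, X₃, hE⟩ := hECD n F N m0 K hn
  obtain ⟨X₁, hX₁⟩ := log_large
  set A : ℝ := C₁ * ((3 * m0 + 1 : ℝ) ^ n + 2 ^ n) with hA
  have hA0 : 0 < A := by positivity
  refine ⟨C₃ * ((m0 + 1) * C₂ * A), by positivity,
    max (max X₁ X₃) ((gr N.r).det.natAbs), ?_⟩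
  intro X g D hX hg hgl hDl
  have hX1 : X₁ ≤ X := le_trans (le_trans (le_max_left _ _) (le_max_left _ _)) hX
  have hX3 : X₃ ≤ X := le_trans (le_trans (le_max_right _ _) (le_max_left _ _)) hX
  have hXd : (gr N.r).det.natAbs ≤ X := le_trans (le_max_right _ _) hX
  obtain ⟨h3X, hlog24, hlog3⟩ := hX₁ X hX1
  have hX0 : (0 : ℝ) < X := by
    have : 0 < X := by omega
    exact_mod_cast this
  have hXr1 : (1 : ℝ) ≤ X := by
    have : 1 ≤ X := by omega
    exact_mod_cast this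
  have hlog : 1 ≤ Real.log X := by
    rw [Real.le_log_iff_exp_le hX0]
    have : (3 : ℝ) ≤ X := by exact_mod_cast h3X
    linarith [Real.exp_one_lt_d9]
  have hlog0 : 0 < Real.log X := by linarith
  have hgX : g < X := by
    have : (g : ℝ) < X := lt_of_le_of_lt hgl hlog3
    exact_mod_cast this
  -- the fourth root
  set s : ℝ := Real.sqrt (Real.sqrt X) with hs
  have hsX : s ^ 4 = X := by
    rw [hs, show (4 : ℕ) = 2 * 2 from rfl, pow_mul, Real.sq_sqrt (Real.sqrt_nonneg _),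
      Real.sq_sqrt hX0.le]
  have hs0 : 0 ≤ s := Real.sqrt_nonneg _
  have hs1 : 1 ≤ s := by
    by_contra hcon
    push Not at hcon
    have : s ^ 4 < 1 := pow_lt_one₀ hs0 hcon (by norm_num)
    linarith
  have hls : Real.log X ^ 6 ≤ s := by
    have : (Real.log X ^ 6) ^ 4 ≤ s ^ 4 := by
      rw [← pow_mul, hsX]; exact hlog24
    exact le_of_pow_le_pow_left₀ (by norm_num) hs0 this
  have hg0 : (0 : ℝ) < g := by exact_mod_cast hg
  have hy : s ^ 3 ≤ (D : ℝ) / (X * g) := by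
    rw [le_div_iff₀ (by positivity)]
    have h1 : (X : ℝ) ^ 2 ≤ D * Real.log X ^ 3 := hDl
    -- s^3 X g ≤ s^3 X log^3 and X^2 ≤ D log^3
    have h2 : s ^ 3 * (X * g) ≤ s ^ 3 * (X * Real.log X ^ 3) := by
      gcongr
    have h3 : s ^ 3 * (X * Real.log X ^ 3) * Real.log X ^ 3 ≤ D * Real.log X ^ 3 := by
      calc s ^ 3 * (X * Real.log X ^ 3) * Real.log X ^ 3 = s ^ 3 * X * Real.log X ^ 6 := by ring
        _ ≤ s ^ 3 * X * s := by gcongr
        _ = (X : ℝ) ^ 2 := by rw [← hsX]; ring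
        _ ≤ D * Real.log X ^ 3 := h1
    have h4 : s ^ 3 * (X * Real.log X ^ 3) ≤ D := le_of_mul_le_mul_right h3 (by positivity)
    exact h2.trans h4
  -- the inner count
  have hinner : ∀ e ∈ EX N m0 K X,
      (((EX N m0 K X).filter fun e' => g ∣ gm e e' ∧ dm e e' ≤ D).card : ℝ) ≤
        (m0 + 1) * C₂ * A * (((D : ℝ) / (X * g)) ^ n / Real.log X) := by
    intro e he
    obtain ⟨m, l, hm, hmm, hl, hlX, hl4, he0⟩ := (Finset.mem_filter.1 he).2.1
    set P : Finset ℕ := (Finset.Ioc X (4 * X)).filter Nat.Prime with hPdef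
    have hsub : ((EX N m0 K X).filter fun e' => g ∣ gm e e' ∧ dm e e' ≤ D) ⊆
        (Finset.Icc 1 m0 ×ˢ P).biUnion fun q => (EX N m0 K X).filter
          fun e' => e' 0 = (q.1 : ℤ) * q.2 ∧ g ∣ gm e e' ∧ dm e e' ≤ D := by
      intro e' he'
      rw [Finset.mem_filter] at he'
      obtain ⟨m', l', hm', hmm', hl', hl'X, hl'4, he'0⟩ := (Finset.mem_filter.1 he'.1).2.1
      rw [Finset.mem_biUnion]
      refine ⟨(m', l'), ?_, ?_⟩
      · rw [Finset.mem_product, Finset.mem_Icc, hPdef, Finset.mem_filter, Finset.mem_Ioc]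
        exact ⟨⟨hm', hmm'⟩, ⟨hl'X, hl'4⟩, hl'⟩
      · rw [Finset.mem_filter]
        exact ⟨he'.1, he'0, he'.2⟩
    have hb : ∀ q ∈ Finset.Icc 1 m0 ×ˢ P, (((EX N m0 K X).filter
        fun e' => e' 0 = (q.1 : ℤ) * q.2 ∧ g ∣ gm e e' ∧ dm e e' ≤ D).card : ℝ) ≤
        A * ((D : ℝ) / (X * g)) ^ n / X := by
      intro q hq
      rw [Finset.mem_product, Finset.mem_Icc, hPdef, Finset.mem_filter, Finset.mem_Ioc] at hq
      obtain ⟨⟨hq1, hq2⟩, ⟨hq3, hq4⟩, hq5⟩ := hq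
      have f1 := fiber_le hG hC₁ N m0 K X g D (by omega) hg hgX hXd e m l hm hl hlX he0
        q.1 q.2 hq1 hq5 hq3
      have hgd : 0 < Nat.gcd g m := Nat.gcd_pos_of_pos_left _ hg
      have hg1 : 1 ≤ g / Nat.gcd g m := Nat.div_pos (Nat.gcd_le_left _ hg) hgd
      have hgm : g ≤ g / Nat.gcd g m * m0 := by
        have h1 : g / Nat.gcd g m * Nat.gcd g m = g := Nat.div_mul_cancel (Nat.gcd_dvd_left _ _)
        have h2 : Nat.gcd g m ≤ m0 := le_trans (Nat.gcd_le_right _ hm) hmm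
        calc g = g / Nat.gcd g m * Nat.gcd g m := h1.symm
          _ ≤ g / Nat.gcd g m * m0 := Nat.mul_le_mul_left _ h2
      have f2 := real_bound n m0 g (g / Nat.gcd g m) D X q.2 hn (by omega) hg hg1 hgm hq3 hq4
        s hs1 hsX hy
      calc _ ≤ _ := f1
        _ ≤ C₁ * (((3 * m0 + 1 : ℝ) ^ n + 2 ^ n) * ((D : ℝ) / (X * g)) ^ n / X) :=
            mul_le_mul_of_nonneg_left f2 hC₁.le
        _ = A * ((D : ℝ) / (X * g)) ^ n / X := by rw [hA]; ring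
    have hcard : (((EX N m0 K X).filter fun e' => g ∣ gm e e' ∧ dm e e' ≤ D).card : ℝ) ≤
        ((Finset.Icc 1 m0 ×ˢ P).card : ℝ) * (A * ((D : ℝ) / (X * g)) ^ n / X) := by
      calc (((EX N m0 K X).filter fun e' => g ∣ gm e e' ∧ dm e e' ≤ D).card : ℝ)
          ≤ (((Finset.Icc 1 m0 ×ˢ P).biUnion fun q => (EX N m0 K X).filter
            fun e' => e' 0 = (q.1 : ℤ) * q.2 ∧ g ∣ gm e e' ∧ dm e e' ≤ D).card : ℝ) := by
              exact_mod_cast Finset.card_le_card hsub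
        _ ≤ ((∑ q ∈ Finset.Icc 1 m0 ×ˢ P, ((EX N m0 K X).filter
            fun e' => e' 0 = (q.1 : ℤ) * q.2 ∧ g ∣ gm e e' ∧ dm e e' ≤ D).card : ℕ) : ℝ) := by
              exact_mod_cast Finset.card_biUnion_le
        _ = ∑ q ∈ Finset.Icc 1 m0 ×ˢ P, (((EX N m0 K X).filter
            fun e' => e' 0 = (q.1 : ℤ) * q.2 ∧ g ∣ gm e e' ∧ dm e e' ≤ D).card : ℝ) := by
              push_cast; rfl
        _ ≤ ∑ _q ∈ Finset.Icc 1 m0 ×ˢ P, A * ((D : ℝ) / (X * g)) ^ n / X :=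
              Finset.sum_le_sum hb
        _ = _ := by rw [Finset.sum_const, nsmul_eq_mul]
    have hPc : (P.card : ℝ) ≤ C₂ * X / Real.log X := (hP X (by omega)).2
    have hc : ((Finset.Icc 1 m0 ×ˢ P).card : ℝ) ≤ (m0 + 1) * (C₂ * X / Real.log X) := by
      rw [Finset.card_product, Nat.card_Icc, Nat.add_sub_cancel]
      push_cast
      have : (0 : ℝ) ≤ m0 := Nat.cast_nonneg _
      exact mul_le_mul (by linarith) hPc (Nat.cast_nonneg _) (by linarith)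
    have hnn : 0 ≤ A * ((D : ℝ) / (X * g)) ^ n / X := by positivity
    calc _ ≤ _ := hcard
      _ ≤ (m0 + 1) * (C₂ * X / Real.log X) * (A * ((D : ℝ) / (X * g)) ^ n / X) :=
          mul_le_mul_of_nonneg_right hc hnn
      _ = (m0 + 1) * C₂ * A * (((D : ℝ) / (X * g)) ^ n / Real.log X) := by
          field_simp
  -- assembly
  have hsum : (((EX N m0 K X ×ˢ EX N m0 K X).filter
      fun q => g ∣ gm q.1 q.2 ∧ dm q.1 q.2 ≤ D).card : ℝ) =
      ∑ e ∈ EX N m0 K X, (((EX N m0 K X).filter fun e' => g ∣ gm e e' ∧ dm e e' ≤ D).card : ℝ) := by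
    rw [Finset.card_filter, Finset.sum_product]
    push_cast
    refine Finset.sum_congr rfl fun e _ => ?_
    rw [Finset.card_filter]
    push_cast
    rfl
  rw [hsum]
  have hE' := hE X hX3
  set Z : ℝ := (m0 + 1) * C₂ * A * (((D : ℝ) / (X * g)) ^ n / Real.log X) with hZ
  have hZ0 : 0 ≤ Z := by positivity
  calc ∑ e ∈ EX N m0 K X, (((EX N m0 K X).filter fun e' => g ∣ gm e e' ∧ dm e e' ≤ D).card : ℝ)
      ≤ ∑ _e ∈ EX N m0 K X, Z := Finset.sum_le_sum hinner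
    _ = ((EX N m0 K X).card : ℝ) * Z := by rw [Finset.sum_const, nsmul_eq_mul]
    _ ≤ C₃ * (X : ℝ) ^ n / Real.log X * Z := mul_le_mul_of_nonneg_right hE' hZ0
    _ = C₃ * ((m0 + 1) * C₂ * A) * ((X : ℝ) ^ n / Real.log X) ^ 2 * ((D : ℝ) / X ^ 2) ^ n /
        (g : ℝ) ^ n := by
        rw [hZ]
        simp only [div_pow, mul_pow]
        field_simp
        ring

end Pool.Agent.H70.HFQ
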